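import Pool.Agent.K3h16.MI.Stm

/-!
# Project MI, brick TINT2: transformation of double integrals
-/

set_option autoImplicit false

open MeasureTheory Set Filter Topology

namespace Pool.Agent.K3h76.MI

open Pool.Agent.K3h16.MI

theorem t_TINT2 : S_TINT1 → S_FIN → S_TINT2 := by
  intro hT1 hFin m n M e v e' v' T ρ U hM hM' hMU hC K hK
  have h1 := hT1 m n M e v e' v' T ρ U hM hM' hMU hC
  have hfin : IsFiniteMeasure v' := hFin m n (T '' M) e' v' hM'
  have hcM' : IsCompact (T '' M) := hM'.compact
  have hae' : ∀ᵐ y ∂v', y ∈ T '' M := by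
    rw [ae_iff]
    exact hM'.vol_compl
  have hae : ∀ᵐ y ∂v, y ∈ M := by
    rw [ae_iff]
    exact hM.vol_compl
  have hres : v'.restrict (T '' M) = v' := Measure.restrict_eq_self_of_ae_mem hae'
  have hrow : ∀ x ∈ T '' M, ContinuousOn (K x) (T '' M) := by
    intro x hx
    have h2 : ContinuousOn (fun y : E n => ((x, y) : E n × E n)) (T '' M) :=
      (continuous_const.prodMk continuous_id).continuousOn
    exact hK.comp h2 fun y hy => ⟨hx, hy⟩
  have hcol : ∀ y ∈ T '' M, ContinuousOn (fun x => K x y) (T '' M) := by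
    intro y hy
    have h2 : ContinuousOn (fun x : E n => ((x, y) : E n × E n)) (T '' M) :=
      (continuous_id.prodMk continuous_const).continuousOn
    exact hK.comp h2 fun x hx => ⟨hx, hy⟩
  obtain ⟨C, hCb⟩ := (hcM'.prod hcM').exists_bound_of_continuousOn hK
  have hF : ContinuousOn (fun x => ∫ y, K x y ∂v') (T '' M) := by
    refine continuousOn_of_dominated (bound := fun _ => C) ?_ ?_ (integrable_const C) ?_
    · intro x hx
      rw [← hres]
      exact (hrow x hx).aestronglyMeasurable hcM'.measurableSet
    · intro x hx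
      filter_upwards [hae'] with y hy
      exact hCb (x, y) ⟨hx, hy⟩
    · filter_upwards [hae'] with y hy
      exact hcol y hy
  rw [h1 _ hF]
  refine integral_congr_ae ?_
  filter_upwards [hae] with x hx
  beta_reduce
  rw [h1 (K (T x)) (hrow (T x) ⟨x, hx, rfl⟩), ← integral_const_mul]
  refine integral_congr_ae (Filter.Eventually.of_forall fun y => ?_)
  beta_reduce
  rw [mul_assoc]

end Pool.Agent.K3h76.MI
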